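import Pool.Agent.H525.EX.Stm5

/-! Project EX (helper525), part V, task LV1 (helper44): the next level of the array equations. -/

set_option autoImplicit false

namespace Pool.Agent.H44.EX

open Pool.Agent.H525.EX

namespace LV1

theorem ind (P : ℤ → ℤ → Prop) (p : ℤ) (hp : 1 ≤ p) (h0 : ∀ N E, N < 0 → P N E)
    (hs : ∀ N E, 0 ≤ N → P (N - p) (E - p) → P N E) (N E : ℤ) : P N E := by
  have key : ∀ n : ℕ, ∀ N E : ℤ, N < n → P N E := by
    intro n
    induction n with
    | zero =>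
      intro N E h
      exact h0 N E (by simpa using h)
    | succ n ih =>
      intro N E h
      rcases lt_or_ge N 0 with h1 | h1
      · exact h0 N E h1
      · refine hs N E h1 (ih _ _ ?_)
        push_cast at h
        omega
  exact key (N.toNat + 1) N E (by push_cast; omega)

theorem ind2 (P : ℤ → ℤ → Prop) (p : ℤ) (hp : 1 ≤ p) (h0 : ∀ N E, N + E < 0 → P N E)
    (hs : ∀ N E, P (N - p) (E - p) → P N E) (N E : ℤ) : P N E := by
  have key : ∀ n : ℕ, ∀ N E : ℤ, N + E < n → P N E := by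
    intro n
    induction n with
    | zero =>
      intro N E h
      exact h0 N E (by simpa using h)
    | succ n ih =>
      intro N E h
      refine hs N E (ih _ _ ?_)
      push_cast at h
      omega
  exact key ((N + E).toNat + 1) N E (by push_cast; omega)

/-- the support of an array -/
structure Sup (f : Arr) : Prop where
  fn : ∀ N E : ℤ, N < 0 → f N E = 0
  fs : ∀ N E : ℤ, E < -N → f N E = 0
  fp : ∀ N E : ℤ, (N + E) % 2 = 1 → f N E = 0
  fu : ∀ N E : ℤ, 2 * N < E → f N E = 0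

/-- the first symmetry -/
def Tau (ε : ℝ) (f : Arr) : Prop :=
  ∀ N E : ℤ, f (2 * N - E) (3 * N - 2 * E) = ε ^ ((E - N) / 2) * f N E

theorem inv (a : ℝ) (p : ℤ) (hp : 1 ≤ p) (h : Arr) (hn : ∀ N E : ℤ, N < 0 → h N E = 0) :
    ∃ f : Arr, (∀ N E : ℤ, N < 0 → f N E = 0) ∧
      ∀ N E : ℤ, f N E = h N E + a * f (N - p) (E - p) := by
  have hz : ∀ (N E : ℤ) (k : ℕ), N < k → h (N - p * k) (E - p * k) = 0 := by
    intro N E k hk
    apply hn
    have h1 : (0 : ℤ) ≤ k := Int.natCast_nonneg k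
    nlinarith
  have htail : ∀ (N E : ℤ) (M₁ M₂ : ℕ), N < M₁ → N < M₂ →
      ∑ k ∈ Finset.range M₁, a ^ k * h (N - p * k) (E - p * k) =
        ∑ k ∈ Finset.range M₂, a ^ k * h (N - p * k) (E - p * k) := by
    intro N E M₁ M₂ h1 h2
    have aux : ∀ M M' : ℕ, M ≤ M' → N < M →
        ∑ k ∈ Finset.range M, a ^ k * h (N - p * k) (E - p * k) =
          ∑ k ∈ Finset.range M', a ^ k * h (N - p * k) (E - p * k) := by
      intro M M' hM hN
      refine Finset.sum_subset (Finset.range_mono hM) ?_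
      intro k _ hk
      rw [Finset.mem_range, not_lt] at hk
      rw [hz N E k (by omega), mul_zero]
    rcases le_total M₁ M₂ with h3 | h3
    · exact aux _ _ h3 h1
    · exact (aux _ _ h3 h2).symm
  refine ⟨fun N E => ∑ k ∈ Finset.range (N.toNat + 1), a ^ k * h (N - p * k) (E - p * k), ?_, ?_⟩
  · intro N E hN
    apply Finset.sum_eq_zero
    intro k _
    rw [hz N E k (by omega), mul_zero]
  · intro N E
    show ∑ k ∈ Finset.range (N.toNat + 1), a ^ k * h (N - p * k) (E - p * k) =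
      h N E + a * ∑ k ∈ Finset.range ((N - p).toNat + 1),
        a ^ k * h (N - p - p * k) (E - p - p * k)
    rw [Finset.sum_range_succ', htail (N - p) (E - p) ((N - p).toNat + 1) N.toNat
      (by push_cast; omega) (by omega), Finset.mul_sum, add_comm]
    congr 1
    · simp
    · apply Finset.sum_congr rfl
      intro k _
      have e1 : N - p * ((k + 1 : ℕ) : ℤ) = N - p - p * k := by push_cast; ring
      have e2 : E - p * ((k + 1 : ℕ) : ℤ) = E - p - p * k := by push_cast; ring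
      rw [e1, e2, pow_succ]
      ring

theorem inh_sup {a : ℝ} {p : ℤ} (hp : 1 ≤ p) {h f : Arr} (hh : Sup h)
    (hf : ∀ N E : ℤ, N < 0 → f N E = 0)
    (hr : ∀ N E : ℤ, f N E = h N E + a * f (N - p) (E - p)) : Sup f := by
  refine ⟨hf, ?_, ?_, ?_⟩
  · refine ind (fun N E => E < -N → f N E = 0) p hp ?_ ?_
    · intro N E hN _
      exact hf N E hN
    · intro N E _ ih hE
      rw [hr, hh.fs N E hE, ih (by omega), mul_zero, add_zero]
  · refine ind (fun N E => (N + E) % 2 = 1 → f N E = 0) p hp ?_ ?_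
    · intro N E hN _
      exact hf N E hN
    · intro N E _ ih hE
      rw [hr, hh.fp N E hE, ih (by omega), mul_zero, add_zero]
  · refine ind (fun N E => 2 * N < E → f N E = 0) p hp ?_ ?_
    · intro N E hN _
      exact hf N E hN
    · intro N E _ ih hE
      rw [hr, hh.fu N E hE, ih (by omega), mul_zero, add_zero]

theorem inh_tau {ε a : ℝ} {p : ℤ} (hp : 1 ≤ p) {h f : Arr} (hf : Sup f) (hh : Tau ε h)
    (hr : ∀ N E : ℤ, f N E = h N E + a * f (N - p) (E - p)) : Tau ε f := by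
  refine ind (fun N E => f (2 * N - E) (3 * N - 2 * E) = ε ^ ((E - N) / 2) * f N E) p hp ?_ ?_
  · intro N E hN
    show f (2 * N - E) (3 * N - 2 * E) = ε ^ ((E - N) / 2) * f N E
    rw [hf.fn N E hN, mul_zero]
    exact hf.fu _ _ (by omega)
  · intro N E _ ih
    show f (2 * N - E) (3 * N - 2 * E) = ε ^ ((E - N) / 2) * f N E
    rw [hr (2 * N - E) (3 * N - 2 * E), hr N E, hh N E]
    have e1 : 2 * N - E - p = 2 * (N - p) - (E - p) := by ring
    have e2 : 3 * N - 2 * E - p = 3 * (N - p) - 2 * (E - p) := by ring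
    have e3 : (E - p) - (N - p) = E - N := by ring
    rw [e1, e2, ih, e3]
    ring

theorem inh_sym {a : ℝ} {p : ℤ} (hp : 1 ≤ p) {h y : Arr} (hh : ∀ N E : ℤ, h N E = h E N)
    (hy : ∀ N E : ℤ, N + E < 0 → y N E = 0)
    (hr : ∀ N E : ℤ, y N E = h N E + a * y (N - p) (E - p)) : ∀ N E : ℤ, y N E = y E N := by
  refine ind2 (fun N E => y N E = y E N) p hp ?_ ?_
  · intro N E hN
    show y N E = y E N
    rw [hy N E hN, hy E N (by omega)]
  · intro N E ih
    show y N E = y E N
    have ih' : y (N - p) (E - p) = y (E - p) (N - p) := ih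
    rw [hr N E, hr E N, hh N E, ih']

/-- the right side of `Rl` -/
def ww (ε g : ℝ) (m : ℤ) (f : Arr) : Arr := fun N E =>
  f N E - g * f (N - m) (E - m + 2) - ε * g * f (N - m - 2) (E - m - 4) +
    ε * g ^ 2 * f (N - 2 * m - 2) (E - 2 * m - 2)

theorem ww_sup {ε g : ℝ} {m : ℤ} (hm : 1 ≤ m) {f : Arr} (hf : Sup f) : Sup (ww ε g m f) := by
  refine ⟨?_, ?_, ?_, ?_⟩
  · intro N E h
    unfold ww
    rw [hf.fn _ _ h, hf.fn (N - m) _ (by omega), hf.fn (N - m - 2) _ (by omega),
      hf.fn (N - 2 * m - 2) _ (by omega)]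
    ring
  · intro N E h
    unfold ww
    rw [hf.fs _ _ h, hf.fs (N - m) (E - m + 2) (by omega),
      hf.fs (N - m - 2) (E - m - 4) (by omega),
      hf.fs (N - 2 * m - 2) (E - 2 * m - 2) (by omega)]
    ring
  · intro N E h
    unfold ww
    rw [hf.fp _ _ h, hf.fp (N - m) (E - m + 2) (by omega),
      hf.fp (N - m - 2) (E - m - 4) (by omega),
      hf.fp (N - 2 * m - 2) (E - 2 * m - 2) (by omega)]
    ring
  · intro N E h
    unfold ww
    rw [hf.fu _ _ h, hf.fu (N - m) (E - m + 2) (by omega),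
      hf.fu (N - m - 2) (E - m - 4) (by omega),
      hf.fu (N - 2 * m - 2) (E - 2 * m - 2) (by omega)]
    ring

theorem ww_tau {ε g : ℝ} {m : ℤ} (hε : ε = 1 ∨ ε = -1) {f : Arr} (hf : Tau ε f) :
    Tau ε (ww ε g m f) := by
  have hε0 : ε ≠ 0 := by rcases hε with h | h <;> rw [h] <;> norm_num
  have hε2 : ε * ε = 1 := by rcases hε with h | h <;> rw [h] <;> norm_num
  have hεi : ε⁻¹ = ε := by rcases hε with h | h <;> rw [h] <;> norm_num
  intro N E
  unfold ww
  have h1 := hf N E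
  have h2 := hf (N - m - 2) (E - m - 4)
  have h3 := hf (N - m) (E - m + 2)
  have h4 := hf (N - 2 * m - 2) (E - 2 * m - 2)
  have a1 : 2 * (N - m - 2) - (E - m - 4) = 2 * N - E - m := by ring
  have a2 : 3 * (N - m - 2) - 2 * (E - m - 4) = 3 * N - 2 * E - m + 2 := by ring
  have a3 : (E - m - 4 - (N - m - 2)) / 2 = (E - N) / 2 - 1 := by omega
  have b1 : 2 * (N - m) - (E - m + 2) = 2 * N - E - m - 2 := by ring
  have b2 : 3 * (N - m) - 2 * (E - m + 2) = 3 * N - 2 * E - m - 4 := by ring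
  have b3 : (E - m + 2 - (N - m)) / 2 = (E - N) / 2 + 1 := by omega
  have c1 : 2 * (N - 2 * m - 2) - (E - 2 * m - 2) = 2 * N - E - 2 * m - 2 := by ring
  have c2 : 3 * (N - 2 * m - 2) - 2 * (E - 2 * m - 2) = 3 * N - 2 * E - 2 * m - 2 := by ring
  have c3 : (E - 2 * m - 2 - (N - 2 * m - 2)) / 2 = (E - N) / 2 := by
    congr 1
    ring
  rw [a1, a2, a3, zpow_sub_one₀ hε0, hεi] at h2
  rw [b1, b2, b3, zpow_add_one₀ hε0] at h3
  rw [c1, c2, c3] at h4
  rw [h1, h2, h3, h4]
  linear_combination (-g * ε ^ ((E - N) / 2) * f (N - m) (E - m + 2)) * hε2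

/-- the symmetrising operator of the next level -/
def op (c : ℝ) (m : ℤ) (h : Arr) : Arr := fun N E =>
  h N E - c * h (N - (m + 4)) (E - (m + 4) + 2)

theorem op_sym {ε g : ℝ} {m : ℤ} {f : Arr}
    (hf : ∀ N E : ℤ, f N E - g * f (N - m) (E - m + 2) = f E N - g * f (E - m) (N - m + 2)) :
    ∀ N E : ℤ, op (ε * g) m (ww ε g m f) N E = op (ε * g) m (ww ε g m f) E N := by
  obtain ⟨s, hs⟩ : ∃ s : Arr, s = fun N E => f N E - g * f (N - m) (E - m + 2) := ⟨_, rfl⟩
  have hss : ∀ N E : ℤ, s N E = s E N := by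
    intro N E
    rw [hs]
    exact hf N E
  have hw : ∀ N E : ℤ, ww ε g m f N E = s N E - ε * g * s (N - m - 2) (E - m - 4) := by
    intro N E
    rw [hs]
    unfold ww
    have e1 : N - m - 2 - m = N - 2 * m - 2 := by ring
    have e2 : E - m - 4 - m + 2 = E - 2 * m - 2 := by ring
    simp only [e1, e2]
    ring
  intro N E
  unfold op
  rw [hw, hw, hw, hw]
  have e1 : N - (m + 4) - m - 2 = N - 2 * m - 6 := by ring
  have e2 : E - (m + 4) + 2 - m - 4 = E - 2 * m - 6 := by ring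
  have e3 : E - (m + 4) - m - 2 = E - 2 * m - 6 := by ring
  have e4 : N - (m + 4) + 2 - m - 4 = N - 2 * m - 6 := by ring
  have e5 : N - (m + 4) = N - m - 4 := by ring
  have e6 : E - (m + 4) = E - m - 4 := by ring
  have e7 : E - m - 4 + 2 = E - m - 2 := by ring
  have e8 : N - m - 4 + 2 = N - m - 2 := by ring
  rw [e1, e2, e3, e4, e5, e6, e7, e8, hss E N, hss (E - m - 2) (N - m - 4),
    hss (E - m - 4) (N - m - 2), hss (E - 2 * m - 6) (N - 2 * m - 6)]
  ring

theorem op_rec {a c : ℝ} {m p : ℤ} {h f : Arr}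
    (hr : ∀ N E : ℤ, f N E = h N E + a * f (N - p) (E - p)) :
    ∀ N E : ℤ, op c m f N E = op c m h N E + a * op c m f (N - p) (E - p) := by
  intro N E
  unfold op
  rw [hr N E, hr (N - (m + 4)) (E - (m + 4) + 2)]
  have e1 : N - (m + 4) - p = N - p - (m + 4) := by ring
  have e2 : E - (m + 4) + 2 - p = E - p - (m + 4) + 2 := by ring
  rw [e1, e2]
  ring

theorem op_zero {c : ℝ} {m : ℤ} (hm : 1 ≤ m) {f : Arr} (hf : Sup f) :
    ∀ N E : ℤ, N + E < 0 → op c m f N E = 0 := by
  intro N E h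
  unfold op
  rw [hf.fs N E (by omega), hf.fs (N - (m + 4)) (E - (m + 4) + 2) (by omega)]
  ring

/-- the row sums -/
noncomputable def R (f : Arr) (N : ℤ) : ℝ := ∑ E ∈ Finset.Icc (-N) (2 * N), f N E

theorem row {f : Arr} (hf : Sup f) (N N' b : ℤ) (s : ℤ → ℤ) (hs : ∀ E, s E = E - b)
    (h1 : -N - b ≤ -N') (h2 : 2 * N' ≤ 2 * N - b) :
    ∑ E ∈ Finset.Icc (-N) (2 * N), f N' (s E) = R f N' := by
  have e1 : ∑ E ∈ Finset.Icc (-N) (2 * N), f N' (s E) =
      ∑ E ∈ Finset.Icc (-N - b) (2 * N - b), f N' E := by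
    refine Finset.sum_nbij' (fun E => E - b) (fun E => E + b) ?_ ?_ ?_ ?_ ?_
    · intro E hE
      rw [Finset.mem_Icc] at hE ⊢
      constructor <;> omega
    · intro E hE
      rw [Finset.mem_Icc] at hE ⊢
      constructor <;> omega
    · intro E _
      show E - b + b = E
      ring
    · intro E _
      show E + b - b = E
      ring
    · intro E _
      show f N' (s E) = f N' (E - b)
      rw [hs]
  rw [e1]
  unfold R
  refine (Finset.sum_subset (Finset.Icc_subset_Icc h1 h2) ?_).symm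
  intro E _ hE
  rw [Finset.mem_Icc, not_and_or, not_le, not_le] at hE
  rcases hE with hE | hE
  · exact hf.fs _ _ hE
  · exact hf.fu _ _ hE

theorem row_eq {ε g : ℝ} {m : ℤ} (hm : 1 ≤ m) {f f' : Arr} (hf : Sup f) (hf' : Sup f')
    (hR : Rl ε g m f f') (N : ℤ) :
    R f' N - g * R f' (N - m) - ε * g * R f' (N - m - 2) + ε * g ^ 2 * R f' (N - 2 * m - 2) =
      R f N - g * R f (N - m) - ε * g * R f (N - m - 2) + ε * g ^ 2 * R f (N - 2 * m - 2) := by
  have h := Finset.sum_congr (rfl : Finset.Icc (-N) (2 * N) = Finset.Icc (-N) (2 * N))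
    (fun E _ => hR N E)
  simp only [Finset.sum_add_distrib, Finset.sum_sub_distrib, ← Finset.mul_sum] at h
  rw [row hf' N (N - m) m (fun E => E - m) (fun E => rfl) (by omega) (by omega),
    row hf' N (N - m - 2) (m + 2) (fun E => E - m - 2) (fun E => by ring) (by omega) (by omega),
    row hf' N (N - 2 * m - 2) (2 * m + 2) (fun E => E - 2 * m - 2) (fun E => by ring) (by omega)
      (by omega),
    row hf N (N - m) (m - 2) (fun E => E - m + 2) (fun E => by ring) (by omega) (by omega),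
    row hf N (N - m - 2) (m + 4) (fun E => E - m - 4) (fun E => by ring) (by omega) (by omega),
    row hf N (N - 2 * m - 2) (2 * m + 2) (fun E => E - 2 * m - 2) (fun E => by ring) (by omega)
      (by omega)] at h
  exact h

theorem row_same {ε g : ℝ} {m : ℤ} (hm : 1 ≤ m) {f f' : Arr} (hf : Sup f) (hf' : Sup f')
    (hR : Rl ε g m f f') (N : ℤ) : R f' N = R f N := by
  have hneg : ∀ h : Arr, Sup h → ∀ N : ℤ, N < 0 → R h N = 0 := by
    intro h hh N hN
    unfold R
    exact Finset.sum_eq_zero fun E _ => hh.fn N E hN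
  have key : ∀ n : ℕ, ∀ N : ℤ, N < n → R f' N = R f N := by
    intro n
    induction n with
    | zero =>
      intro N hN
      have hN' : N < 0 := by simpa using hN
      rw [hneg f' hf' N hN', hneg f hf N hN']
    | succ n ih =>
      intro N hN
      push_cast at hN
      have h1 := row_eq hm hf hf' hR N
      rw [ih (N - m) (by omega), ih (N - m - 2) (by omega), ih (N - 2 * m - 2) (by omega)] at h1
      linarith
  exact key (N.toNat + 1) N (by push_cast; omega)

end LV1

open LV1 in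
theorem t_lv1 : S_lv1 := by
  intro ε g m f hε hm hmo hL
  have hε0 : ε ≠ 0 := by rcases hε with h | h <;> rw [h] <;> norm_num
  have hS : Sup f := by
    refine ⟨hL.fn, hL.fs, hL.fp, ?_⟩
    intro N E h
    have h1 := hL.tau N E
    rw [hL.fn (2 * N - E) _ (by omega)] at h1
    have h2 : ε ^ ((E - N) / 2) ≠ 0 := zpow_ne_zero _ hε0
    exact (mul_eq_zero.mp h1.symm).resolve_left h2
  have hw := ww_sup (ε := ε) (g := g) hm hS
  have hwt := ww_tau (g := g) (m := m) hε (f := f) hL.tau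
  obtain ⟨w₁, hn1, hr1⟩ := inv g m hm (ww ε g m f) hw.fn
  have hw1 := inh_sup hm hw hn1 hr1
  have ht1 := inh_tau hm hw1 hwt hr1
  have hm2 : 1 ≤ m + 2 := by omega
  obtain ⟨f', hn2, hr2⟩ := inv (ε * g) (m + 2) hm2 w₁ hw1.fn
  have hf' := inh_sup hm2 hw1 hn2 hr2
  have ht2 := inh_tau hm2 hf' ht1 hr2
  have hRl : Rl ε g m f f' := by
    intro N E
    have e1 := hr2 N E
    have e2 := hr2 (N - m) (E - m)
    have e3 := hr1 N E
    have a1 : N - (m + 2) = N - m - 2 := by ring
    have a2 : E - (m + 2) = E - m - 2 := by ring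
    have a3 : N - m - (m + 2) = N - 2 * m - 2 := by ring
    have a4 : E - m - (m + 2) = E - 2 * m - 2 := by ring
    rw [a1, a2] at e1
    rw [a3, a4] at e2
    unfold ww at e3
    linear_combination e1 - g * e2 + e3
  have s1 := op_sym (ε := ε) hL.sym
  have s2 := inh_sym hm s1 (op_zero hm hw1) (op_rec hr1)
  have s3 := inh_sym hm2 s2 (op_zero hm hf') (op_rec hr2)
  refine ⟨f', ⟨hf'.fn, hf'.fs, hf'.fp, ht2, s3, ?_⟩, hRl⟩
  intro N
  have h1 := row_same hm hS hf' hRl N
  have h2 := hL.nor N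
  unfold R at h1
  rw [h1, h2]

end Pool.Agent.H44.EX
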